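import Mathlib

/-! OVOIDS (MP_c637b9_co), layer 2, OVO_PROOF sections 5 - 6 in the one-space interface, no case split.
`E` = the space of full words, `ρ m M` = the matrix `M` acting at digit `m`.
`B` = BB (sum of the images of the slot-`k` operators), `B'` = its twist by `-1`,
`T i` = Theta_i, `P p q w` = the entries of the block matrix psi_w on `B'`. -/

set_option autoImplicit false
set_option linter.unusedSectionVars false

namespace Pool.OVO27

open Matrix Finset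

variable {F : Type*} [Field F] [CharP F 2] {E : Type*} [AddCommGroup E] [Module F E] {h : ℕ}

/-- `B` is stable under all matrices at digit `m`. -/
def Stb (ρ : ZMod h → Matrix (Fin 4) (Fin 4) F →ₐ[F] Module.End F E) (m : ZMod h)
    (B : Submodule F E) : Prop :=
  ∀ M : Matrix (Fin 4) (Fin 4) F, ∀ β ∈ B, ρ m M β ∈ B

/-- matrix unit. -/
abbrev mu (p q : Fin 4) : Matrix (Fin 4) (Fin 4) F := Matrix.single p q 1

omit [CharP F 2] in
theorem sum_mu (ρ : ZMod h → Matrix (Fin 4) (Fin 4) F →ₐ[F] Module.End F E) (m : ZMod h) (β : E) :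
    ∑ w : Fin 4, ρ m (mu w w) β = β := by
  have h1 : (∑ w : Fin 4, (mu w w : Matrix (Fin 4) (Fin 4) F)) = 1 := by
    ext i j
    simp only [Matrix.sum_apply, Matrix.single_apply, Matrix.one_apply, Fin.sum_univ_four]
    fin_cases i <;> fin_cases j <;> simp
  have h2 := congrArg (fun M => ρ m M β) h1
  simpa [map_sum, LinearMap.sum_apply] using h2

/-- the block operator `Psi_w`. -/
def Psi (ρ : ZMod h → Matrix (Fin 4) (Fin 4) F →ₐ[F] Module.End F E) (k : ZMod h)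
    (P : Fin 4 → Fin 4 → Fin 4 → Module.End F E) (w : Fin 4) : Module.End F E :=
  ∑ p : Fin 4, ∑ q : Fin 4, ρ k (mu p q) * P p q w

theorem Psi_apply (ρ : ZMod h → Matrix (Fin 4) (Fin 4) F →ₐ[F] Module.End F E) (k : ZMod h)
    (P : Fin 4 → Fin 4 → Fin 4 → Module.End F E) (w : Fin 4) (β : E) :
    Psi ρ k P w β = ∑ p : Fin 4, ∑ q : Fin 4, ρ k (mu p q) (P p q w β) := by
  simp [Psi, LinearMap.sum_apply]

theorem Psi_mem {ρ : ZMod h → Matrix (Fin 4) (Fin 4) F →ₐ[F] Module.End F E} {k : ZMod h}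
    {P : Fin 4 → Fin 4 → Fin 4 → Module.End F E} {B : Submodule F E}
    (hs : Stb ρ k B) (hP : ∀ p q w, ∀ β ∈ B, P p q w β ∈ B) (w : Fin 4) {β : E} (hβ : β ∈ B) :
    Psi ρ k P w β ∈ B := by
  rw [Psi_apply]
  exact Submodule.sum_mem _ fun p _ => Submodule.sum_mem _ fun q _ => hs _ _ (hP p q w β hβ)

/-- `Psi_z` commutes with the entries of `psi_w` on `B`. -/
theorem Psi_comm_entry {ρ : ZMod h → Matrix (Fin 4) (Fin 4) F →ₐ[F] Module.End F E} {k : ZMod h}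
    {P : Fin 4 → Fin 4 → Fin 4 → Module.End F E} {B : Submodule F E}
    (hP : ∀ p q w, ∀ β ∈ B, P p q w β ∈ B)
    (hk : ∀ p q w M, ∀ β ∈ B, P p q w (ρ k M β) = ρ k M (P p q w β))
    (hc : ∀ p q w p' q' w', ∀ β ∈ B, P p q w (P p' q' w' β) = P p' q' w' (P p q w β))
    (z p q w : Fin 4) {β : E} (hβ : β ∈ B) :
    P p q w (Psi ρ k P z β) = Psi ρ k P z (P p q w β) := by
  rw [Psi_apply, Psi_apply, map_sum]
  refine Finset.sum_congr rfl fun a _ => ?_
  rw [map_sum]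
  refine Finset.sum_congr rfl fun b _ => ?_
  rw [hk _ _ _ _ _ (hP _ _ _ _ hβ), hc _ _ _ _ _ _ _ hβ]

/-- **(5.1)**: `B' ≤ B`. -/
theorem fin_le {ρ : ZMod h → Matrix (Fin 4) (Fin 4) F →ₐ[F] Module.End F E} {k : ZMod h}
    (hρ : ∀ m n : ZMod h, m ≠ n → ∀ M N, ∀ β : E, ρ m M (ρ n N β) = ρ n N (ρ m M β))
    (hk1 : k ≠ 1) {σ : Fin 4 → Fin 4} (hσ : ∀ i, σ (σ i) = i)
    {j : Fin 5 → Matrix (Fin 4) (Fin 4) F} (hj : j 0 = 1)
    {T : Fin 4 → Module.End F E} {C : Fin 5 → Fin 4 → Module.End F E}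
    {B B' : Submodule F E} {P : Fin 4 → Fin 4 → Fin 4 → Module.End F E}
    (hTC : ∀ i φ, T i φ = ∑ b : Fin 5, ρ k (j b) (C b i φ))
    (hCk : ∀ b i M φ, C b i (ρ k M φ) = ρ k M (C b i φ))
    (hCB : ∀ b i, b ≠ 0 → ∀ φ, C b i φ ∈ B)
    (hB1 : Stb ρ 1 B) (hBk : Stb ρ k B) (hB'k : Stb ρ k B')
    (hP : ∀ p q w, ∀ β ∈ B', P p q w β ∈ B')
    (hPk : ∀ p q w M, ∀ β ∈ B', P p q w (ρ k M β) = ρ k M (P p q w β))
    (hPP : ∀ p q w p' q' w', ∀ β ∈ B', P p q w (P p' q' w' β) = P p' q' w' (P p q w β))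
    (hcl : ∀ z w, ∀ β ∈ B', Psi ρ k P z (Psi ρ k P w β) + Psi ρ k P w (Psi ρ k P z β) =
      if z = σ w then β else 0)
    (h5 : ∀ β ∈ B', ∀ p : Fin 4, ∑ i : Fin 4, ρ 1 (mu p (σ i)) (T i β) =
      ∑ i : Fin 4, ρ 1 (mu p (σ i)) (Psi ρ k P i β)) :
    B' ≤ B := by
  -- commutators of Theta with the digit `k` lie in `B`
  have hcomm : ∀ i M φ, T i (ρ k M φ) - ρ k M (T i φ) ∈ B := by
    intro i M φ
    have e : T i (ρ k M φ) - ρ k M (T i φ) =
        ∑ b : Fin 5, ρ k (j b * M - M * j b) (C b i φ) := by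
      rw [hTC, hTC, map_sum, ← Finset.sum_sub_distrib]
      refine Finset.sum_congr rfl fun b _ => ?_
      rw [hCk, map_sub, map_mul, map_mul]
      simp
    rw [e]
    refine Submodule.sum_mem _ fun b _ => ?_
    by_cases hb : b = 0
    · subst hb
      simp [hj]
    · exact hBk _ _ (hCB b i hb φ)
  -- (5.0) for commutators
  have key : ∀ β ∈ B', ∀ r : Fin 4, ∀ M,
      ∑ i : Fin 4, ρ 1 (mu r (σ i)) (Psi ρ k P i (ρ k M β) - ρ k M (Psi ρ k P i β)) ∈ B := by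
    intro β hβ r M
    have e : ∑ i : Fin 4, ρ 1 (mu r (σ i)) (Psi ρ k P i (ρ k M β) - ρ k M (Psi ρ k P i β)) =
        ∑ i : Fin 4, ρ 1 (mu r (σ i)) (T i (ρ k M β) - ρ k M (T i β)) := by
      simp only [map_sub, Finset.sum_sub_distrib]
      rw [← h5 _ (hB'k M β hβ) r]
      congr 1
      have e1 : ∀ X : Fin 4 → E, ∑ i : Fin 4, ρ 1 (mu r (σ i)) (ρ k M (X i)) =
          ρ k M (∑ i : Fin 4, ρ 1 (mu r (σ i)) (X i)) := by
        intro X
        rw [map_sum]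
        exact Finset.sum_congr rfl fun i _ => hρ 1 k (Ne.symm hk1) _ _ _
      rw [e1, e1, h5 β hβ r]
    rw [e]
    exact Submodule.sum_mem _ fun i _ => hB1 _ _ (hcomm i M β)
  intro β hβ
  -- every contraction of `β` lies in `B`
  have main : ∀ r w : Fin 4, ρ 1 (mu r w) β ∈ B := by
    intro r w
    -- Clifford relation
    have cl : ∀ i : Fin 4, (if i = σ w then β else 0) =
        ∑ p : Fin 4, ∑ q : Fin 4, (Psi ρ k P i (ρ k (mu p q) (P p q w β)) -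
          ρ k (mu p q) (Psi ρ k P i (P p q w β))) +
        ((2 : F) • Psi ρ k P w (Psi ρ k P i β)) := by
      intro i
      have e1 : ∑ p : Fin 4, ∑ q : Fin 4, Psi ρ k P i (ρ k (mu p q) (P p q w β)) =
          Psi ρ k P i (Psi ρ k P w β) := by
        rw [Psi_apply ρ k P w, map_sum]
        exact Finset.sum_congr rfl fun p _ => by rw [map_sum]
      have e2 : ∑ p : Fin 4, ∑ q : Fin 4, ρ k (mu p q) (Psi ρ k P i (P p q w β)) =
          Psi ρ k P w (Psi ρ k P i β) := by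
        rw [Psi_apply ρ k P w]
        refine Finset.sum_congr rfl fun p _ => Finset.sum_congr rfl fun q _ => ?_
        rw [Psi_comm_entry hP hPk hPP _ _ _ _ hβ]
      simp only [Finset.sum_sub_distrib]
      rw [e1, e2, ← hcl i w β hβ, two_smul]
      abel
    have h2 : (2 : F) = 0 := by exact_mod_cast CharP.cast_eq_zero F 2
    have e3 : ρ 1 (mu r w) β = ∑ i : Fin 4, ρ 1 (mu r (σ i)) (if i = σ w then β else 0) := by
      rw [Finset.sum_eq_single (σ w)]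
      · simp [hσ]
      · intro i _ hi
        simp [hi]
      · simp
    rw [e3]
    simp only [cl, h2, zero_smul, add_zero]
    have e4 : ∑ i : Fin 4, ρ 1 (mu r (σ i))
        (∑ p : Fin 4, ∑ q : Fin 4, (Psi ρ k P i (ρ k (mu p q) (P p q w β)) -
          ρ k (mu p q) (Psi ρ k P i (P p q w β)))) =
        ∑ p : Fin 4, ∑ q : Fin 4, ∑ i : Fin 4, ρ 1 (mu r (σ i))
          (Psi ρ k P i (ρ k (mu p q) (P p q w β)) -
          ρ k (mu p q) (Psi ρ k P i (P p q w β))) := by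
      simp only [map_sum]
      rw [Finset.sum_comm]
      refine Finset.sum_congr rfl fun p _ => ?_
      rw [Finset.sum_comm]
    rw [e4]
    exact Submodule.sum_mem _ fun p _ => Submodule.sum_mem _ fun q _ =>
      key _ (hP p q w β hβ) r _
  rw [← sum_mu ρ 1 β]
  exact Submodule.sum_mem _ fun w _ => main w w

/-- `T` commutes with the matrices at digit `m`. -/
def Trv (ρ : ZMod h → Matrix (Fin 4) (Fin 4) F →ₐ[F] Module.End F E) (T : Fin 4 → Module.End F E)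
    (m : ZMod h) : Prop :=
  ∀ i M φ, T i (ρ m M φ) = ρ m M (T i φ)

/-- a subspace closed under `Φ⁻¹` is closed under `Φ`. -/
theorem phi_mem {Φ : E → E} (hh : 1 ≤ h) (hΦ : ∀ β, Φ^[h] β = β) {B : Submodule F E}
    (hB : ∀ β, Φ β ∈ B → β ∈ B) {β : E} (hβ : β ∈ B) : Φ β ∈ B := by
  have h1 : ∀ n : ℕ, ∀ γ : E, Φ^[n] γ ∈ B → γ ∈ B := by
    intro n
    induction n with
    | zero => intro γ hγ; simpa using hγ
    | succ n ih =>
      intro γ hγ
      rw [Function.iterate_succ_apply] at hγ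
      exact hB _ (ih _ hγ)
  apply h1 (h - 1)
  have h2 : Φ^[h - 1] (Φ β) = β := by
    rw [← Function.iterate_succ_apply, Nat.succ_eq_add_one, Nat.sub_add_cancel hh, hΦ]
  rw [h2]
  exact hβ

/-- stability travels from digit `0` to every digit. -/
theorem stb_all [NeZero h] [Fintype F] {ρ : ZMod h → Matrix (Fin 4) (Fin 4) F →ₐ[F] Module.End F E}
    {Φ : E → E} (hΦ : ∀ β, Φ^[h] β = β)
    (hΦρ : ∀ m (M : Matrix (Fin 4) (Fin 4) F) β,
      Φ (ρ m M β) = ρ (m + 1) (M.map fun x => x ^ 2) (Φ β))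
    {B : Submodule F E} (hB : ∀ β, Φ β ∈ B → β ∈ B) (h0 : Stb ρ 0 B) (m : ZMod h) : Stb ρ m B := by
  have hh : 1 ≤ h := Nat.one_le_iff_ne_zero.mpr (NeZero.ne h)
  have step : ∀ m : ZMod h, Stb ρ m B → Stb ρ (m + 1) B := by
    intro m hm M β hβ
    have hsq : ∀ x : F, ∃ y : F, y ^ 2 = x := by
      have h1 : Function.Injective (frobenius F 2) := (frobenius F 2).injective
      have h2 : Function.Surjective (frobenius F 2) := Finite.injective_iff_surjective.mp h1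
      intro x
      obtain ⟨y, hy⟩ := h2 x
      exact ⟨y, by rw [← hy, frobenius_def]⟩
    choose r hr using hsq
    have hM : M = (M.map r).map fun x => x ^ 2 := by
      ext a b
      simp [hr]
    obtain ⟨γ, hγ⟩ : ∃ γ, Φ γ = β := ⟨Φ^[h - 1] β, by
      have e : Φ^[h - 1 + 1] β = Φ (Φ^[h - 1] β) := Function.iterate_succ_apply' Φ (h - 1) β
      rw [Nat.sub_add_cancel hh, hΦ] at e
      exact e.symm⟩
    have hγB : γ ∈ B := hB γ (by rw [hγ]; exact hβ)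
    rw [hM, ← hγ, ← hΦρ]
    exact phi_mem hh hΦ hB (hm _ _ hγB)
  have all : ∀ n : ℕ, Stb ρ (n : ZMod h) B := by
    intro n
    induction n with
    | zero => simpa using h0
    | succ n ih => rw [Nat.cast_succ]; exact step _ ih
  have e : ((m.val : ℕ) : ZMod h) = m := ZMod.natCast_zmod_val m
  rw [← e]
  exact all _

/-- **section 6**: `T` is trivial at every digit where `Psi` is. -/
theorem fin_trv {ρ : ZMod h → Matrix (Fin 4) (Fin 4) F →ₐ[F] Module.End F E} {m : ZMod h}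
    (hρ : ∀ m n : ZMod h, m ≠ n → ∀ M N, ∀ β : E, ρ m M (ρ n N β) = ρ n N (ρ m M β))
    (hm : m ≠ 1) {σ : Fin 4 → Fin 4} (hσ : ∀ i, σ (σ i) = i)
    {T Q : Fin 4 → Module.End F E} (hT1 : Trv ρ T 1) (hQ : Trv ρ Q m)
    (h5 : ∀ β : E, ∀ p : Fin 4, ∑ i : Fin 4, ρ 1 (mu p (σ i)) (T i β) =
      ∑ i : Fin 4, ρ 1 (mu p (σ i)) (Q i β)) : Trv ρ T m := by
  have e0 : ∀ β : E, ∀ p : Fin 4, ∀ M,
      ∑ i : Fin 4, ρ 1 (mu p (σ i)) (T i (ρ m M β) - ρ m M (T i β)) = 0 := by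
    intro β p M
    simp only [map_sub, Finset.sum_sub_distrib]
    rw [h5]
    have e1 : ∀ X : Fin 4 → E, ∑ i : Fin 4, ρ 1 (mu p (σ i)) (ρ m M (X i)) =
        ρ m M (∑ i : Fin 4, ρ 1 (mu p (σ i)) (X i)) := by
      intro X
      rw [map_sum]
      exact Finset.sum_congr rfl fun i _ => hρ 1 m (Ne.symm hm) _ _ _
    rw [e1, h5, ← e1]
    simp only [hQ _ _ _, sub_self]
  have e2 : ∀ i0 β M, ∀ p u : Fin 4,
      ρ 1 (mu p u) (T i0 (ρ m M β) - ρ m M (T i0 β)) = 0 := by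
    intro i0 β M p u
    have := e0 (ρ 1 (mu (σ i0) u) β) p M
    rw [← this, Finset.sum_eq_single i0]
    · rw [hρ m 1 hm, hT1, hT1, hρ m 1 hm, ← map_sub]
      have e3 : ∀ X : E, ρ 1 (mu p (σ i0)) (ρ 1 (mu (σ i0) u) X) = ρ 1 (mu p u) X := by
        intro X
        rw [← Module.End.mul_apply, ← map_mul]
        simp [mu, Matrix.single_mul_single_same]
      rw [e3]
    · intro i _ hi
      rw [hρ m 1 hm, hT1, hT1, hρ m 1 hm, ← map_sub]
      rw [← Module.End.mul_apply, ← map_mul]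
      have : σ i ≠ σ i0 := fun e => hi (by rw [← hσ i, e, hσ])
      simp [mu, Matrix.single_mul_single_of_ne, this]
    · simp
  intro i M φ
  rw [← sub_eq_zero, ← sum_mu ρ 1 (T i (ρ m M φ) - ρ m M (T i φ))]
  exact Finset.sum_eq_zero fun w _ => e2 i φ M w w

/-- `Psi` commutes with the digit `m` when its entries do, `m ≠ k`. -/
theorem Psi_trv {ρ : ZMod h → Matrix (Fin 4) (Fin 4) F →ₐ[F] Module.End F E} {k m : ZMod h}
    (hρ : ∀ m n : ZMod h, m ≠ n → ∀ M N, ∀ β : E, ρ m M (ρ n N β) = ρ n N (ρ m M β))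
    (hmk : m ≠ k) {P : Fin 4 → Fin 4 → Fin 4 → Module.End F E}
    (hP : ∀ p q w M β, P p q w (ρ m M β) = ρ m M (P p q w β)) :
    Trv ρ (Psi ρ k P) m := by
  intro i M φ
  rw [Psi_apply, Psi_apply, map_sum]
  refine Finset.sum_congr rfl fun a _ => ?_
  rw [map_sum]
  refine Finset.sum_congr rfl fun b _ => ?_
  rw [hP, hρ k m (Ne.symm hmk)]

/-- **OVO_PROOF sections 5 - 6.**  `k` = run end; `B` = BB, `B'` = its twist by `-1`. -/
theorem fin_all [NeZero h] [Fintype F]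
    {ρ : ZMod h → Matrix (Fin 4) (Fin 4) F →ₐ[F] Module.End F E} {k : ZMod h}
    (hρ : ∀ m n : ZMod h, m ≠ n → ∀ M N, ∀ β : E, ρ m M (ρ n N β) = ρ n N (ρ m M β))
    (hirr : ∀ B : Submodule F E, B ≠ ⊥ → (∀ m, Stb ρ m B) → B = ⊤)
    {Φ : E → E} (hΦ : ∀ β, Φ^[h] β = β)
    (hΦρ : ∀ m (M : Matrix (Fin 4) (Fin 4) F) β,
      Φ (ρ m M β) = ρ (m + 1) (M.map fun x => x ^ 2) (Φ β))
    (hk1 : k ≠ 1) {σ : Fin 4 → Fin 4} (hσ : ∀ i, σ (σ i) = i)
    {j : Fin 5 → Matrix (Fin 4) (Fin 4) F} (hj : j 0 = 1)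
    {T : Fin 4 → Module.End F E} {C : Fin 5 → Fin 4 → Module.End F E}
    {B B' : Submodule F E} {P : Fin 4 → Fin 4 → Fin 4 → Module.End F E}
    (hT0 : Trv ρ T 0) (hT1 : Trv ρ T 1) (hTk1 : Trv ρ T (k + 1))
    (hTC : ∀ i φ, T i φ = ∑ b : Fin 5, ρ k (j b) (C b i φ))
    (hCk : ∀ b i M φ, C b i (ρ k M φ) = ρ k M (C b i φ))
    (hCB : ∀ b i, b ≠ 0 → ∀ φ, C b i φ ∈ B)
    (hB0 : B ≠ ⊥) (hB' : ∀ β, β ∈ B' ↔ Φ β ∈ B)
    (hBs : ∀ m, m = k ∨ Trv ρ T m → Stb ρ m B)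
    (hP : ∀ p q w, ∀ β ∈ B', P p q w β ∈ B')
    (hPs : ∀ m, m + 1 = k ∨ Trv ρ T (m + 1) →
      ∀ p q w M, ∀ β ∈ B', P p q w (ρ m M β) = ρ m M (P p q w β))
    (hPP : ∀ p q w p' q' w', ∀ β ∈ B', P p q w (P p' q' w' β) = P p' q' w' (P p q w β))
    (hcl : ∀ z w, ∀ β ∈ B', Psi ρ k P z (Psi ρ k P w β) + Psi ρ k P w (Psi ρ k P z β) =
      if z = σ w then β else 0)
    (h5 : ∀ β ∈ B', ∀ p : Fin 4, ∑ i : Fin 4, ρ 1 (mu p (σ i)) (T i β) =
      ∑ i : Fin 4, ρ 1 (mu p (σ i)) (Psi ρ k P i β)) :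
    ∀ m, m ≠ k → Trv ρ T m := by
  have hB's : ∀ m, m + 1 = k ∨ Trv ρ T (m + 1) → Stb ρ m B' := by
    intro m hm M β hβ
    rw [hB'] at hβ ⊢
    rw [hΦρ]
    exact hBs _ hm _ _ hβ
  have hle : B' ≤ B :=
    fin_le hρ hk1 hσ hj hTC hCk hCB (hBs 1 (Or.inr hT1)) (hBs k (Or.inl rfl))
      (hB's k (Or.inr hTk1)) hP (hPs k (Or.inr hTk1)) hPP hcl h5
  have hcl' : ∀ β, Φ β ∈ B → β ∈ B := fun β hβ => hle ((hB' β).mpr hβ)
  have htop : B = ⊤ :=
    hirr B hB0 fun m => stb_all hΦ hΦρ hcl' (hBs 0 (Or.inr hT0)) m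
  have htop' : ∀ β, β ∈ B' := fun β => by rw [hB', htop]; exact Submodule.mem_top
  have step : ∀ m, m ≠ k → m + 1 = k ∨ Trv ρ T (m + 1) → Trv ρ T m := by
    intro m hmk hm
    by_cases hm1 : m = 1
    · rw [hm1]; exact hT1
    · exact fin_trv hρ hm1 hσ hT1
        (Psi_trv hρ hmk fun p q w M β => hPs m hm p q w M β (htop' β))
        fun β p => h5 β (htop' β) p
  -- go down from digit `0`
  have down : ∀ n : ℕ, (-(n : ZMod h)) = k ∨ Trv ρ T (-(n : ZMod h)) := by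
    intro n
    induction n with
    | zero => right; simpa using hT0
    | succ n ih =>
      by_cases hk : (-((n + 1 : ℕ) : ZMod h)) = k
      · exact Or.inl hk
      · right
        apply step _ hk
        have e : -((n + 1 : ℕ) : ZMod h) + 1 = -(n : ZMod h) := by push_cast; ring
        rw [e]
        exact ih
  intro m hm
  have := down (-m).val
  rw [ZMod.natCast_zmod_val, neg_neg] at this
  exact this.resolve_left hm

end Pool.OVO27
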