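import Mathlib
import Pool.Agent.H41.OVO.Tw
import Pool.Agent.H27.OVO.Fin

/-! OVOIDS (MP_c637b9_co): base lemmas of the one-space layer (in helper41's definitions):
irreducibility of `E`, exchange at a digit, (S5). -/

set_option autoImplicit false
set_option linter.unusedSectionVars false

namespace Pool.OVE27

open Function Pool.OVE
open Finset hiding ext
open Matrix hiding J ext

section basic

variable {F : Type} [Field F] {h : ℕ}

theorem rho_single (m : ZMod h) (p q : Fin 4) (φ : E F h) (w : W h) :
    rho m (Matrix.single p q 1) φ w = if w m = p then φ (update w m q) else 0 := by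
  rw [rho_apply]
  by_cases hp : w m = p
  · rw [if_pos hp, Finset.sum_eq_single q]
    · simp [hp]
    · intro j _ hj
      simp [Ne.symm hj]
    · simp
  · rw [if_neg hp]
    exact Finset.sum_eq_zero fun j _ => by simp [Ne.symm hp]

end basic

section fin

variable {F : Type} [Field F] {h : ℕ} [NeZero h]

/-- moving the letter at one digit. -/
theorem stb_delta {B : Submodule F (E F h)} (hB : ∀ m, OVO27.Stb (rho (F := F)) m B)
    (s : Finset (ZMod h)) (w v : W h) :
    ∀ φ ∈ B, ∃ ψ ∈ B, ∀ u : W h, ψ u =
      if (∀ m ∈ s, u m = v m) then φ (fun m => if m ∈ s then w m else u m) else 0 := by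
  intro φ hφ
  induction s using Finset.induction_on with
  | empty => exact ⟨φ, hφ, fun u => by simp⟩
  | insert a s ha ih =>
    obtain ⟨ψ, hψ, e⟩ := ih
    refine ⟨rho a (Matrix.single (v a) (w a) 1) ψ, hB a _ _ hψ, fun u => ?_⟩
    rw [rho_single]
    by_cases h1 : u a = v a
    · rw [if_pos h1, e]
      by_cases h2 : ∀ m ∈ s, u m = v m
      · have h3 : ∀ m ∈ s, update u a (w a) m = v m := by
          intro m hm
          have : m ≠ a := fun e => ha (e ▸ hm)
          rw [update_of_ne this]; exact h2 m hm
        have h4 : ∀ m ∈ insert a s, u m = v m := by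
          intro m hm
          rcases Finset.mem_insert.mp hm with rfl | hm
          · exact h1
          · exact h2 m hm
        rw [if_pos h3, if_pos h4]
        congr 1
        funext m
        by_cases hm : m ∈ s
        · simp [hm]
        · by_cases hma : m = a
          · subst hma; simp [hm]
          · simp [hm, hma]
      · have h3 : ¬ ∀ m ∈ s, update u a (w a) m = v m := by
          intro h3
          apply h2
          intro m hm
          have hma : m ≠ a := fun e => ha (e ▸ hm)
          have := h3 m hm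
          rwa [update_of_ne hma] at this
        have h4 : ¬ ∀ m ∈ insert a s, u m = v m := fun h4 =>
          h2 fun m hm => h4 m (Finset.mem_insert_of_mem hm)
        rw [if_neg h3, if_neg h4]
    · rw [if_neg h1, if_neg]
      exact fun h4 => h1 (h4 a (Finset.mem_insert_self a s))

/-- `E` is irreducible under the matrices at all digits. -/
theorem E_irr (B : Submodule F (E F h)) (h0 : B ≠ ⊥)
    (hB : ∀ m, OVO27.Stb (rho (F := F)) m B) : B = ⊤ := by
  obtain ⟨φ, hφ, hne⟩ := Submodule.exists_mem_ne_zero_of_ne_bot h0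
  obtain ⟨w, hw⟩ : ∃ w, φ w ≠ 0 := by
    by_contra hc
    push Not at hc
    exact hne (funext hc)
  have hδ : ∀ v : W h, (Pi.single v 1 : E F h) ∈ B := by
    intro v
    obtain ⟨ψ, hψ, e⟩ := stb_delta hB Finset.univ w v φ hφ
    have e1 : (Pi.single v 1 : E F h) = (φ w)⁻¹ • ψ := by
      funext u
      rw [Pi.smul_apply, e]
      by_cases hu : u = v
      · subst hu
        simp [hw]
      · have : ¬ ∀ m ∈ (Finset.univ : Finset (ZMod h)), u m = v m := by
          intro h1
          exact hu (funext fun m => h1 m (Finset.mem_univ m))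
        rw [if_neg this]
        simp [hu]
    rw [e1]
    exact Submodule.smul_mem _ _ hψ
  rw [eq_top_iff]
  intro ψ _
  have : ψ = ∑ v : W h, ψ v • (Pi.single v 1 : E F h) := by
    funext u
    simp [Finset.sum_apply, Pi.single_apply]
  rw [this]
  exact Submodule.sum_mem _ fun v _ => Submodule.smul_mem _ _ (hδ v)

/-- the linear form `φ ↦ bf φ ψ` -/
def evl (ψ : E F h) : E F h →ₗ[F] F where
  toFun φ := bf φ ψ
  map_add' φ φ' := OVE41.bf_add_left φ φ' ψ
  map_smul' c φ := OVE41.bf_smul_left c φ ψ

@[simp] theorem evl_apply (ψ φ : E F h) : evl ψ φ = bf φ ψ := rfl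

/-- value of a pure tensor with the letter at one digit split off -/
theorem pr_split (v : ZMod h → Fin 4 → F) (w : W h) (m : ZMod h) :
    pr v w = v m (w m) * ∏ n ∈ Finset.univ.erase m, v n (w n) := by
  unfold pr
  rw [← Finset.mul_prod_erase _ _ (Finset.mem_univ m)]

/-- a matrix at a digit, applied to a pure tensor -/
theorem rho_pr (m : ZMod h) (A : Matrix (Fin 4) (Fin 4) F) (v : ZMod h → Fin 4 → F) :
    rho m A (pr v) = pr (update v m (A.mulVec (v m))) := by
  funext w
  rw [rho_apply, pr_split _ w m]
  simp only [update_self]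
  have e1 : ∏ n ∈ Finset.univ.erase m, update v m (A.mulVec (v m)) n (w n) =
      ∏ n ∈ Finset.univ.erase m, v n (w n) := by
    refine Finset.prod_congr rfl fun n hn => ?_
    rw [update_of_ne (Finset.ne_of_mem_erase hn)]
  rw [e1]
  simp only [Matrix.mulVec, dotProduct, Finset.sum_mul]
  refine Finset.sum_congr rfl fun j _ => ?_
  rw [pr_split _ _ m, update_self]
  have e2 : ∏ n ∈ Finset.univ.erase m, v n (update w m j n) =
      ∏ n ∈ Finset.univ.erase m, v n (w n) := by
    refine Finset.prod_congr rfl fun n hn => ?_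
    rw [update_of_ne (Finset.ne_of_mem_erase hn)]
  rw [e2]
  ring

theorem pr_update_smul (v : ZMod h → Fin 4 → F) (m : ZMod h) (c : F) (u : Fin 4 → F) :
    pr (update v m (c • u)) = c • pr (update v m u) := by
  funext w
  rw [Pi.smul_apply, pr_split _ w m, pr_split _ w m]
  simp only [update_self, Pi.smul_apply, smul_eq_mul]
  have e : ∏ n ∈ Finset.univ.erase m, update v m (c • u) n (w n) =
      ∏ n ∈ Finset.univ.erase m, update v m u n (w n) := by
    refine Finset.prod_congr rfl fun n hn => ?_
    rw [update_of_ne (Finset.ne_of_mem_erase hn), update_of_ne (Finset.ne_of_mem_erase hn)]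
  rw [e]
  ring

/-- a matrix unit at a digit, applied to a pure tensor -/
theorem rho_mu_pr (m : ZMod h) (p q : Fin 4) (v : ZMod h → Fin 4 → F) :
    rho m (Matrix.single p q 1) (pr v) = v m q • pr (update v m (Pi.single p 1)) := by
  rw [rho_pr, ← pr_update_smul]
  congr 2
  funext i
  simp only [Matrix.mulVec, dotProduct, Matrix.single_apply, Pi.smul_apply, smul_eq_mul]
  by_cases hi : p = i
  · subst hi; simp
  · simp [hi, Ne.symm hi]

/-- exchange at a digit -/
theorem bf_exch (m : ZMod h) (i p r : Fin 4) (v : ZMod h → Fin 4 → F) (β : E F h) :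
    v m i * bf (rho m (Matrix.single p r 1) β) (pr v) =
      v m (br p) * bf (rho m (Matrix.single (br i) r 1) β) (pr v) := by
  have hadj : ∀ a b : Fin 4, adj (Matrix.single a b (1 : F)) = Matrix.single (br b) (br a) 1 := by
    intro a b
    ext x z
    simp only [adj, Matrix.single_apply]
    have h1 : (a = br z) = (br a = z) := propext ⟨fun e => by rw [e, br_br], fun e => by rw [← e, br_br]⟩
    have h2 : (b = br x) = (br b = x) := propext ⟨fun e => by rw [e, br_br], fun e => by rw [← e, br_br]⟩
    simp only [h1, h2, and_comm]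
  rw [OVE41.bf_rho, OVE41.bf_rho, hadj, hadj, rho_mu_pr, rho_mu_pr, br_br,
    OVE41.bf_smul_right, OVE41.bf_smul_right]
  ring

/-- **(S5)**: pairing with the words `y_i^2 prod_{m /= 1}`. -/
theorem s5 (Om : Finset (Fin 4 → F))
    (h2 : ∀ φ ψ : E F h, ∑ y ∈ Om, bf φ (hat y) * bf ψ (hat y) = bf φ ψ)
    (χ : Fin 4 → E F h)
    (hχ : ∀ y ∈ Om, ∑ i, pw y (1 : ZMod h) i * bf (χ i) (hat y) = 0) (r : Fin 4) :
    ∑ i, rho 1 (Matrix.single r i 1) (χ i) = 0 := by
  funext w
  rw [Finset.sum_apply]
  simp only [rho_single, Pi.zero_apply]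
  by_cases hw : w 1 = r
  swap
  · simp [hw]
  simp only [hw, if_true]
  have e1 : ∀ i, χ i (update w 1 i) =
      ∑ y ∈ Om, bf (χ i) (hat y) * bf (Pi.single (wbr (update w 1 i)) 1) (hat y) := by
    intro i
    rw [h2, OVE41.bf_single]
  have e2 : ∀ (i : Fin 4) (y : Fin 4 → F), bf (Pi.single (wbr (update w 1 i)) 1) (hat y) =
      pw y (1 : ZMod h) i * ∏ n ∈ Finset.univ.erase (1 : ZMod h), pw y n (w n) := by
    intro i y
    rw [OVE41.bf_comm, OVE41.bf_single, hat, pr_split _ _ (1 : ZMod h), update_self]
    congr 1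
    refine Finset.prod_congr rfl fun n hn => ?_
    rw [update_of_ne (Finset.ne_of_mem_erase hn)]
  rw [Finset.sum_congr rfl fun i _ => e1 i, Finset.sum_comm]
  refine Finset.sum_eq_zero fun y hy => ?_
  have e3 : ∀ i, bf (χ i) (hat y) * bf (Pi.single (wbr (update w 1 i)) 1) (hat y) =
      (pw y (1 : ZMod h) i * bf (χ i) (hat y)) *
        ∏ n ∈ Finset.univ.erase (1 : ZMod h), pw y n (w n) := by
    intro i
    rw [e2]; ring
  rw [Finset.sum_congr rfl fun i _ => e3 i, ← Finset.sum_mul, hχ y hy, zero_mul]

end fin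

end Pool.OVE27
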