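import Mathlib
import Pool.Agent.H27.OVO.Fin

/-! OVOIDS (MP_c637b9_co), layer 2, OVO_PROOF section 4 in the one-space interface. -/

set_option autoImplicit false
set_option linter.unusedSectionVars false

namespace Pool.OVO27

open Matrix Finset

variable {F : Type*} [Field F] [CharP F 2] {E : Type*} [AddCommGroup E] [Module F E] {h : ℕ}

/-- the entries of `psi_l = G gamma_l^T N`. -/
def PP (gam : Fin 4 → Fin 4 → Fin 4 → F) (σ : Fin 4 → Fin 4)
    (G N : Fin 4 → Fin 4 → Module.End F E) (p q l : Fin 4) : Module.End F E :=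
  ∑ a : Fin 4, ∑ a' : Fin 4, gam l a a' • (G a' (σ p) * N a (σ q))

theorem PP_apply (gam : Fin 4 → Fin 4 → Fin 4 → F) (σ : Fin 4 → Fin 4)
    (G N : Fin 4 → Fin 4 → Module.End F E) (p q l : Fin 4) (β : E) :
    PP gam σ G N p q l β = ∑ a : Fin 4, ∑ a' : Fin 4, gam l a a' • (G a' (σ p) (N a (σ q) β)) := by
  simp [PP, LinearMap.sum_apply]

section
variable {gam : Fin 4 → Fin 4 → Fin 4 → F} {σ : Fin 4 → Fin 4}
  {G N : Fin 4 → Fin 4 → Module.End F E} {B : Submodule F E}

theorem PP_mem (hG : ∀ a i, ∀ β ∈ B, G a i β ∈ B) (hN : ∀ a i, ∀ β ∈ B, N a i β ∈ B)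
    (p q l : Fin 4) {β : E} (hβ : β ∈ B) : PP gam σ G N p q l β ∈ B := by
  rw [PP_apply]
  exact Submodule.sum_mem _ fun a _ => Submodule.sum_mem _ fun a' _ =>
    Submodule.smul_mem _ _ (hG _ _ _ (hN _ _ _ hβ))

/-- an operator commuting with all `G`, `N` on `B` commutes with the entries `PP`. -/
theorem PP_comm {X : Module.End F E}
    (hN : ∀ a i, ∀ β ∈ B, N a i β ∈ B)
    (hXG : ∀ a i, ∀ β ∈ B, X (G a i β) = G a i (X β))
    (hXN : ∀ a i, ∀ β ∈ B, X (N a i β) = N a i (X β))
    (p q l : Fin 4) {β : E} (hβ : β ∈ B) :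
    X (PP gam σ G N p q l β) = PP gam σ G N p q l (X β) := by
  rw [PP_apply, PP_apply, map_sum]
  refine Finset.sum_congr rfl fun a _ => ?_
  rw [map_sum]
  refine Finset.sum_congr rfl fun a' _ => ?_
  rw [map_smul, hXG _ _ _ (hN _ _ _ hβ), hXN _ _ _ hβ]

/-- product of two blocks. -/
theorem PP_mul (hσ : ∀ i, σ (σ i) = i) (hG : ∀ a i, ∀ β ∈ B, G a i β ∈ B)
    (hN : ∀ a i, ∀ β ∈ B, N a i β ∈ B)
    (hNG : ∀ a a', ∀ β ∈ B, ∑ i : Fin 4, N a i (G a' i β) = if a = a' then β else 0)
    (p q l m : Fin 4) {β : E} (hβ : β ∈ B) :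
    ∑ r : Fin 4, PP gam σ G N p r l (PP gam σ G N r q m β) =
      ∑ a : Fin 4, ∑ a' : Fin 4, (∑ b : Fin 4, gam m a b * gam l b a') •
        G a' (σ p) (N a (σ q) β) := by
  have hσs : Function.Surjective σ := fun i => ⟨σ i, hσ i⟩
  have e1 : ∀ r : Fin 4, PP gam σ G N p r l (PP gam σ G N r q m β) =
      ∑ b : Fin 4, ∑ a' : Fin 4, ∑ a : Fin 4, ∑ b' : Fin 4,
        (gam l b a' * gam m a b') • G a' (σ p) (N b (σ r) (G b' (σ r) (N a (σ q) β))) := by
    intro r
    rw [PP_apply]
    refine Finset.sum_congr rfl fun b _ => Finset.sum_congr rfl fun a' _ => ?_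
    rw [PP_apply, map_sum, map_sum, Finset.smul_sum]
    refine Finset.sum_congr rfl fun a _ => ?_
    rw [map_sum, map_sum, Finset.smul_sum]
    refine Finset.sum_congr rfl fun b' _ => ?_
    rw [map_smul, map_smul, smul_smul]
  have e2 : ∀ b b' : Fin 4, ∀ γ ∈ B, ∑ r : Fin 4, N b (σ r) (G b' (σ r) γ) =
      if b = b' then γ else 0 := by
    intro b b' γ hγ
    rw [← hNG b b' γ hγ]
    exact Function.Bijective.sum_comp ⟨fun x y hxy => by rw [← hσ x, hxy, hσ], hσs⟩
      (fun r => N b r (G b' r γ))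
  calc ∑ r : Fin 4, PP gam σ G N p r l (PP gam σ G N r q m β)
      = ∑ r : Fin 4, ∑ b : Fin 4, ∑ a' : Fin 4, ∑ a : Fin 4, ∑ b' : Fin 4,
        (gam l b a' * gam m a b') • G a' (σ p) (N b (σ r) (G b' (σ r) (N a (σ q) β))) :=
        Finset.sum_congr rfl fun r _ => e1 r
    _ = ∑ b : Fin 4, ∑ a' : Fin 4, ∑ a : Fin 4, ∑ b' : Fin 4,
        (gam l b a' * gam m a b') • G a' (σ p) (if b = b' then N a (σ q) β else 0) := by
        rw [Finset.sum_comm]
        refine Finset.sum_congr rfl fun b _ => ?_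
        rw [Finset.sum_comm]
        refine Finset.sum_congr rfl fun a' _ => ?_
        rw [Finset.sum_comm]
        refine Finset.sum_congr rfl fun a _ => ?_
        rw [Finset.sum_comm]
        refine Finset.sum_congr rfl fun b' _ => ?_
        rw [← Finset.smul_sum, ← map_sum, e2 b b' _ (hN _ _ _ hβ)]
    _ = ∑ b : Fin 4, ∑ a' : Fin 4, ∑ a : Fin 4,
        (gam l b a' * gam m a b) • G a' (σ p) (N a (σ q) β) := by
        refine Finset.sum_congr rfl fun b _ => Finset.sum_congr rfl fun a' _ =>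
          Finset.sum_congr rfl fun a _ => ?_
        rw [Finset.sum_eq_single b]
        · simp
        · intro b' _ hb'
          simp [Ne.symm hb']
        · simp
    _ = _ := by
        rw [Finset.sum_comm]
        rw [Finset.sum_comm (f := fun a a' => (∑ b : Fin 4, gam m a b * gam l b a') •
          G a' (σ p) (N a (σ q) β))]
        refine Finset.sum_congr rfl fun a' _ => ?_
        rw [Finset.sum_comm]
        refine Finset.sum_congr rfl fun a _ => ?_
        rw [Finset.sum_smul]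
        exact Finset.sum_congr rfl fun b _ => by rw [mul_comm]

/-- the Clifford relation for `Psi`. -/
theorem Psi_cl {ρ : ZMod h → Matrix (Fin 4) (Fin 4) F →ₐ[F] Module.End F E} {k : ZMod h}
    (hσ : ∀ i, σ (σ i) = i) (hG : ∀ a i, ∀ β ∈ B, G a i β ∈ B)
    (hN : ∀ a i, ∀ β ∈ B, N a i β ∈ B)
    (hNG : ∀ a a', ∀ β ∈ B, ∑ i : Fin 4, N a i (G a' i β) = if a = a' then β else 0)
    (hGN : ∀ i j, ∀ β ∈ B, ∑ a : Fin 4, G a i (N a j β) = if i = j then β else 0)
    (hGk : ∀ a i M, ∀ β ∈ B, G a i (ρ k M β) = ρ k M (G a i β))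
    (hNk : ∀ a i M, ∀ β ∈ B, N a i (ρ k M β) = ρ k M (N a i β))
    (hgam : ∀ l m a a' : Fin 4, ∑ b : Fin 4, (gam m a b * gam l b a' + gam l a b * gam m b a') =
      if a = a' then (if l = σ m then 1 else 0) else 0)
    (l m : Fin 4) {β : E} (hβ : β ∈ B) :
    Psi ρ k (PP gam σ G N) l (Psi ρ k (PP gam σ G N) m β) +
      Psi ρ k (PP gam σ G N) m (Psi ρ k (PP gam σ G N) l β) = if l = σ m then β else 0 := by
  have hσi : ∀ x y, σ x = σ y → x = y := fun x y hxy => by rw [← hσ x, hxy, hσ]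
  have e1 : ∀ l m : Fin 4, Psi ρ k (PP gam σ G N) l (Psi ρ k (PP gam σ G N) m β) =
      ∑ p : Fin 4, ∑ q : Fin 4, ρ k (mu p q)
        (∑ r : Fin 4, PP gam σ G N p r l (PP gam σ G N r q m β)) := by
    intro l m
    rw [Psi_apply]
    refine Finset.sum_congr rfl fun p _ => ?_
    have e2 : ∀ r : Fin 4, ρ k (mu p r) (PP gam σ G N p r l (Psi ρ k (PP gam σ G N) m β)) =
        ∑ q : Fin 4, ρ k (mu p q) (PP gam σ G N p r l (PP gam σ G N r q m β)) := by
      intro r
      have e3 : ∀ s q : Fin 4, ρ k (mu p r) (PP gam σ G N p r l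
          (ρ k (mu s q) (PP gam σ G N s q m β))) = if s = r then
            ρ k (mu p q) (PP gam σ G N p r l (PP gam σ G N r q m β)) else 0 := by
        intro s q
        have e4 : PP gam σ G N p r l (ρ k (mu s q) (PP gam σ G N s q m β)) =
            ρ k (mu s q) (PP gam σ G N p r l (PP gam σ G N s q m β)) :=
          (PP_comm (X := ρ k (mu s q)) hN (fun a i γ hγ => (hGk a i _ γ hγ).symm)
            (fun a i γ hγ => (hNk a i _ γ hγ).symm) p r l (PP_mem hG hN s q m hβ)).symm
        rw [e4]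
        have e5 : ∀ γ : E, ρ k (mu p r) (ρ k (mu s q) γ) = ρ k (mu p r * mu s q) γ := by
          intro γ
          rw [map_mul]; rfl
        rw [e5]
        by_cases hs : s = r
        · subst hs
          simp [mu, Matrix.single_mul_single_same]
        · simp [mu, Matrix.single_mul_single_of_ne, hs, Ne.symm hs]
      rw [Psi_apply, map_sum, map_sum]
      rw [Finset.sum_eq_single r]
      · rw [map_sum, map_sum]
        exact Finset.sum_congr rfl fun q _ => by rw [e3]; simp
      · intro s _ hs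
        rw [map_sum, map_sum]
        exact Finset.sum_eq_zero fun q _ => by rw [e3]; simp [hs]
      · simp
    rw [Finset.sum_congr rfl fun r _ => e2 r, Finset.sum_comm]
    exact Finset.sum_congr rfl fun q _ => by rw [map_sum]
  rw [e1, e1, ← Finset.sum_add_distrib]
  have e6 : ∀ p q : Fin 4, (∑ r : Fin 4, PP gam σ G N p r l (PP gam σ G N r q m β)) +
      (∑ r : Fin 4, PP gam σ G N p r m (PP gam σ G N r q l β)) =
      if l = σ m then (if p = q then β else 0) else 0 := by
    intro p q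
    rw [PP_mul hσ hG hN hNG p q l m hβ, PP_mul hσ hG hN hNG p q m l hβ, ← Finset.sum_add_distrib]
    have e7 : ∀ a : Fin 4, (∑ a' : Fin 4, (∑ b : Fin 4, gam m a b * gam l b a') •
        G a' (σ p) (N a (σ q) β)) + (∑ a' : Fin 4, (∑ b : Fin 4, gam l a b * gam m b a') •
        G a' (σ p) (N a (σ q) β)) = if l = σ m then G a (σ p) (N a (σ q) β) else 0 := by
      intro a
      rw [← Finset.sum_add_distrib]
      have e8 : ∀ a' : Fin 4, (∑ b : Fin 4, gam m a b * gam l b a') •
          G a' (σ p) (N a (σ q) β) + (∑ b : Fin 4, gam l a b * gam m b a') •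
          G a' (σ p) (N a (σ q) β) =
          if a = a' then (if l = σ m then G a (σ p) (N a (σ q) β) else 0) else 0 := by
        intro a'
        rw [← add_smul, ← Finset.sum_add_distrib, hgam]
        by_cases ha : a = a'
        · subst ha; by_cases hl : l = σ m <;> simp [hl]
        · simp [ha]
      rw [Finset.sum_congr rfl fun a' _ => e8 a']
      simp
    rw [Finset.sum_congr rfl fun a _ => e7 a]
    by_cases hl : l = σ m
    · simp only [hl, if_true]
      rw [hGN _ _ _ hβ]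
      by_cases hpq : p = q
      · simp [hpq]
      · have : σ p ≠ σ q := fun e => hpq (hσi _ _ e)
        simp [hpq, this]
    · simp [hl]
  have e9 : ∀ p : Fin 4, (∑ q : Fin 4, ρ k (mu p q)
        (∑ r : Fin 4, PP gam σ G N p r l (PP gam σ G N r q m β))) +
        (∑ q : Fin 4, ρ k (mu p q)
        (∑ r : Fin 4, PP gam σ G N p r m (PP gam σ G N r q l β))) =
        if l = σ m then ρ k (mu p p) β else 0 := by
    intro p
    rw [← Finset.sum_add_distrib]
    have : ∀ q : Fin 4, ρ k (mu p q)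
        (∑ r : Fin 4, PP gam σ G N p r l (PP gam σ G N r q m β)) + ρ k (mu p q)
        (∑ r : Fin 4, PP gam σ G N p r m (PP gam σ G N r q l β)) =
        if p = q then (if l = σ m then ρ k (mu p p) β else 0) else 0 := by
      intro q
      rw [← map_add, e6]
      by_cases hpq : p = q
      · subst hpq; by_cases hl : l = σ m <;> simp [hl]
      · by_cases hl : l = σ m <;> simp [hl, hpq]
    rw [Finset.sum_congr rfl fun q _ => this q]
    simp
  rw [Finset.sum_congr rfl fun p _ => e9 p]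
  by_cases hl : l = σ m
  · simp only [hl, if_true]
    exact sum_mu ρ k β
  · simp [hl]

/-- **section 4**: the function identity for `Psi`.
`u y i` = `y_i^(2^k)`, `v y l` = `y_l^2`, `q y` = `Q(y)`, `ev y φ` = the value of the word `φ` at `y`. -/
theorem sec4 {ρ : ZMod h → Matrix (Fin 4) (Fin 4) F →ₐ[F] Module.End F E} {k : ZMod h}
    {Y : Type*} {ev : Y → E →ₗ[F] F} {u v : Y → Fin 4 → F} {qq : Y → F}
    (hσ : ∀ i, σ (σ i) = i) (hG : ∀ a i, ∀ β ∈ B, G a i β ∈ B)
    (hN : ∀ a i, ∀ β ∈ B, N a i β ∈ B)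
    (hGN : ∀ i j, ∀ β ∈ B, ∑ a : Fin 4, G a i (N a j β) = if i = j then β else 0)
    (hGk : ∀ a i M, ∀ β ∈ B, G a i (ρ k M β) = ρ k M (G a i β))
    (hNk : ∀ a i M, ∀ β ∈ B, N a i (ρ k M β) = ρ k M (N a i β))
    (hBk : Stb ρ k B)
    (hex : ∀ y i p r β, u y i * ev y (ρ k (mu p r) β) = u y (σ p) * ev y (ρ k (mu (σ i) r) β))
    (hne : ∀ y, ∃ i, u y i ≠ 0)
    (hg2 : ∀ y a, ∀ ξ ∈ B, qq y * ∑ i : Fin 4, u y i * ev y (G a i ξ) =
      ∑ l : Fin 4, v y l * ∑ a' : Fin 4, gam l a a' * ∑ i : Fin 4, u y i * ev y (G a' i ξ))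
    (y : Y) {β : E} (hβ : β ∈ B) :
    qq y * ev y β = ∑ l : Fin 4, v y l * ev y (Psi ρ k (PP gam σ G N) l β) := by
  obtain ⟨p0, hp0⟩ := hne y
  set p : Fin 4 := σ p0 with hp
  have hpu : u y (σ p) ≠ 0 := by rw [hp, hσ]; exact hp0
  have hσs : Function.Bijective σ :=
    ⟨fun x z hxz => by rw [← hσ x, hxz, hσ], fun i => ⟨σ i, hσ i⟩⟩
  -- the vector eta
  have hη : ∀ i, ρ k (mu p (σ i)) β ∈ B := fun i => hBk _ _ hβ
  -- evaluation of eta
  have ev1 : ∑ i : Fin 4, u y i * ev y (ρ k (mu p (σ i)) β) = u y (σ p) * ev y β := by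
    have : ∀ i : Fin 4, u y i * ev y (ρ k (mu p (σ i)) β) =
        u y (σ p) * ev y (ρ k (mu (σ i) (σ i)) β) := fun i => hex y i p (σ i) β
    rw [Finset.sum_congr rfl fun i _ => this i, ← Finset.mul_sum]
    congr 1
    rw [hσs.sum_comp (fun i => ev y (ρ k (mu i i) β)), ← map_sum, sum_mu]
  -- eta = sum_a G_a xi_a
  have ev2 : ∀ i : Fin 4, ρ k (mu p (σ i)) β =
      ∑ a : Fin 4, G a i (∑ j : Fin 4, N a j (ρ k (mu p (σ j)) β)) := by
    intro i
    simp only [map_sum]
    rw [Finset.sum_comm]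
    have : ∀ j : Fin 4, ∑ a : Fin 4, G a i (N a j (ρ k (mu p (σ j)) β)) =
        if i = j then ρ k (mu p (σ j)) β else 0 := fun j => hGN i j _ (hη j)
    rw [Finset.sum_congr rfl fun j _ => this j]
    simp
  apply mul_left_cancel₀ hpu
  have hξ : ∀ a : Fin 4, (∑ j : Fin 4, N a j (ρ k (mu p (σ j)) β)) ∈ B := fun a =>
    Submodule.sum_mem _ fun j _ => hN _ _ _ (hη j)
  calc u y (σ p) * (qq y * ev y β)
      = qq y * ∑ i : Fin 4, u y i * ev y (ρ k (mu p (σ i)) β) := by rw [ev1]; ring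
    _ = ∑ a : Fin 4, qq y * ∑ i : Fin 4, u y i *
          ev y (G a i (∑ j : Fin 4, N a j (ρ k (mu p (σ j)) β))) := by
        rw [← Finset.mul_sum]
        congr 1
        rw [Finset.sum_comm]
        refine Finset.sum_congr rfl fun i _ => ?_
        rw [← Finset.mul_sum, ← map_sum, ← ev2]
    _ = ∑ a : Fin 4, ∑ l : Fin 4, v y l * ∑ a' : Fin 4, gam l a a' * ∑ i : Fin 4, u y i *
          ev y (G a' i (∑ j : Fin 4, N a j (ρ k (mu p (σ j)) β))) :=
        Finset.sum_congr rfl fun a _ => hg2 y a _ (hξ a)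
    _ = ∑ l : Fin 4, v y l * (u y (σ p) * ev y (Psi ρ k (PP gam σ G N) l β)) := by
        rw [Finset.sum_comm]
        refine Finset.sum_congr rfl fun l _ => ?_
        rw [← Finset.mul_sum]
        congr 1
        rw [Psi_apply, map_sum, Finset.mul_sum]
        have e1 : ∀ i : Fin 4, u y (σ p) * ev y (∑ q : Fin 4, ρ k (mu (σ i) q)
            (PP gam σ G N (σ i) q l β)) = ∑ a : Fin 4, ∑ a' : Fin 4, gam l a a' * (u y i *
            ev y (G a' i (∑ j : Fin 4, N a j (ρ k (mu p (σ j)) β)))) := by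
          intro i
          have e2 : ∀ j : Fin 4, ρ k (mu p (σ j)) (PP gam σ G N (σ i) (σ j) l β) =
              ∑ a : Fin 4, ∑ a' : Fin 4, gam l a a' • G a' i (N a j (ρ k (mu p (σ j)) β)) := by
            intro j
            rw [PP_comm (X := ρ k (mu p (σ j))) hN (fun a i γ hγ => (hGk a i _ γ hγ).symm)
              (fun a i γ hγ => (hNk a i _ γ hγ).symm) _ _ l hβ, PP_apply]
            simp only [hσ]
          have e3 : ∑ a : Fin 4, ∑ a' : Fin 4, gam l a a' * (u y i *
              ev y (G a' i (∑ j : Fin 4, N a j (ρ k (mu p (σ j)) β)))) =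
              u y i * ev y (∑ j : Fin 4, ρ k (mu p (σ j)) (PP gam σ G N (σ i) (σ j) l β)) := by
            have : (∑ j : Fin 4, ρ k (mu p (σ j)) (PP gam σ G N (σ i) (σ j) l β)) =
                ∑ a : Fin 4, ∑ a' : Fin 4, gam l a a' •
                  G a' i (∑ j : Fin 4, N a j (ρ k (mu p (σ j)) β)) := by
              rw [Finset.sum_congr rfl fun j _ => e2 j, Finset.sum_comm]
              refine Finset.sum_congr rfl fun a _ => ?_
              rw [Finset.sum_comm]
              refine Finset.sum_congr rfl fun a' _ => ?_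
              rw [← Finset.smul_sum, map_sum]
            rw [this, map_sum, Finset.mul_sum]
            refine Finset.sum_congr rfl fun a _ => ?_
            rw [map_sum, Finset.mul_sum]
            refine Finset.sum_congr rfl fun a' _ => ?_
            rw [map_smul, smul_eq_mul]
            ring
          rw [e3, map_sum, map_sum, Finset.mul_sum, Finset.mul_sum]
          rw [← hσs.sum_comp (fun q => u y (σ p) * ev y (ρ k (mu (σ i) q)
            (PP gam σ G N (σ i) q l β)))]
          exact Finset.sum_congr rfl fun j _ => (hex y i p (σ j) _).symm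
        rw [← hσs.sum_comp (fun r => u y (σ p) * ev y (∑ q : Fin 4, ρ k (mu r q)
            (PP gam σ G N r q l β)))]
        rw [Finset.sum_congr rfl fun i _ => e1 i]
        symm
        rw [Finset.sum_comm]
        refine Finset.sum_congr rfl fun a _ => ?_
        rw [Finset.sum_comm]
        refine Finset.sum_congr rfl fun a' _ => ?_
        rw [Finset.mul_sum]
    _ = u y (σ p) * ∑ l : Fin 4, v y l * ev y (Psi ρ k (PP gam σ G N) l β) := by
        rw [Finset.mul_sum]
        exact Finset.sum_congr rfl fun l _ => by ring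

end

end Pool.OVO27
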