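import Mathlib
import Pool.Agent.H41.OVO.Tw
import Pool.Agent.H53.OVO.GLF
import Pool.Agent.H14.OVO.Abs1
import Pool.Agent.H27.OVO.Bl
import Pool.Agent.H27.OVO.Sec4

/-! OVOIDS (MP_c637b9_co): LAYER TWO. -/

set_option autoImplicit false
set_option linter.unusedSectionVars false

namespace Pool.OVE27

open Function Pool.OVE Pool.OVE41
open Finset hiding ext
open Matrix hiding J ext

section g2

variable {F : Type} [Field F] [Fintype F] [CharP F 2] {h : ℕ} [NeZero h]

theorem gam_map_sq (c : Fin 4 → F) (b b' : Fin 4) :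
    (gam c b b') ^ 2 = gam (fun i => c i ^ 2) b b' := by
  fin_cases b <;> fin_cases b' <;> simp [gam]

/-- (g2), twisted `j` times. -/
theorem g2_it {Om : Finset (Fin 4 → F)} {Θ : Fin 4 → Module.End F (E F h)}
    (hB : Base Om Θ) {κ : ZMod h} (hG : ∀ y ∈ Om, ∀ ξ : E F h, ∀ b : Fin 4,
      Qf y ^ (2 ^ κ.val) * ∑ i, y i ^ 2 * bf (Cc κ Θ b i ξ) (hat y) =
        ∑ b', gam (fun i => y i ^ (2 ^ (κ.val + 1))) b b' *
          ∑ i, y i ^ 2 * bf (Cc κ Θ b' i ξ) (hat y)) (j : ℕ) :
    ∀ y ∈ Om, ∀ ξ : E F h, ∀ b : Fin 4,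
      Qf y ^ (2 ^ (κ.val + j)) *
        ∑ i, y i ^ (2 ^ (1 + j)) * bf (co (κ + (j : ZMod h)) b.succ (tw j Θ i) ξ) (hat y) =
      ∑ b', gam (fun i => y i ^ (2 ^ (κ.val + 1 + j))) b b' *
        ∑ i, y i ^ (2 ^ (1 + j)) * bf (co (κ + (j : ZMod h)) b'.succ (tw j Θ i) ξ) (hat y) := by
  induction j with
  | zero =>
    intro y hy ξ b
    have := hG y hy ξ b
    simpa [tw_zero, Cc] using this
  | succ j ih =>
    intro y hy ξ b
    obtain ⟨ξ, rfl⟩ := (Phi (F := F) (h := h)).surjective ξ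
    have h1 := congrArg (fun x : F => x ^ 2) (ih y hy ξ b)
    beta_reduce at h1
    have e1 : ∀ b : Fin 4, (∑ i, y i ^ (2 ^ (1 + j)) *
        bf (co (κ + (j : ZMod h)) b.succ (tw j Θ i) ξ) (hat y)) ^ 2 =
        ∑ i, y i ^ (2 ^ (1 + (j + 1))) *
          bf (co (κ + ((j + 1 : ℕ) : ZMod h)) b.succ (tw (j + 1) Θ i) (Phi ξ)) (hat y) := by
      intro b
      rw [sum_sq]
      refine Finset.sum_congr rfl fun i _ => ?_
      have e2 : κ + ((j + 1 : ℕ) : ZMod h) = κ + (j : ZMod h) + 1 := by push_cast; ring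
      have e3 : bf (co (κ + ((j + 1 : ℕ) : ZMod h)) b.succ (tw (j + 1) Θ i) (Phi ξ)) (hat y) =
          bf (co (κ + (j : ZMod h)) b.succ (tw j Θ i) ξ) (hat y) ^ 2 := by
        rw [← bf_cj_left, e2, tw_succ, cj_co, Phi_hat hB.hq]
      rw [e3, mul_pow, ← pow_mul, ← pow_succ, add_assoc 1 j 1]
    rw [mul_pow, e1, sum_sq, ← pow_mul, ← pow_succ] at h1
    rw [← add_assoc κ.val j 1, h1]
    refine Finset.sum_congr rfl fun b' _ => ?_
    rw [mul_pow, e1, gam_map_sq]
    congr 2
    funext i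
    rw [← pow_mul, ← pow_succ]
    congr 2

end g2

section run

variable {F : Type} [Field F] [Fintype F] [CharP F 2] {h : ℕ} [NeZero h]
  {Om : Finset (Fin 4 → F)} {Θ : Fin 4 → Module.End F (E F h)}

/-- the tables of `Psi_cl` -/
theorem jj_cl (l m a a' : Fin 4) :
    ∑ b : Fin 4, (jj (F := F) m a b * jj l b a' + jj l a b * jj m b a') =
      if a = a' then (if l = br m then 1 else 0) else 0 := by
  have h2 : (1 : F) + 1 = 0 := CharTwo.add_self_eq_zero 1
  fin_cases l <;> fin_cases m <;> fin_cases a <;> fin_cases a' <;>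
    simp [jj, J, Fin.sum_univ_four, br, h2]

/-- points are not zero -/
theorem om_ne_zero (hB : Base Om Θ) {y : Fin 4 → F} (hy : y ∈ Om) : y ≠ 0 := by
  rintro rfl
  have h1 : 1 < Om.card := by
    rw [hB.card, hB.hq]
    have : 0 < 2 ^ h := by positivity
    nlinarith
  obtain ⟨z, hz, hz0⟩ := Finset.exists_mem_ne h1 (0 : Fin 4 → F)
  exact hB.ov 0 hy z hz hz0.symm (by simp [om])

/-- pairing form of E5 -/
theorem e5_pair (hB : Base Om Θ) {y : Fin 4 → F} (hy : y ∈ Om) (φ : E F h) :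
    ∑ i, y i ^ 2 * bf (Θ i φ) (hat y) = Qf y * bf φ (hat y) := by
  have := tw_ev hB 0 hy φ
  simpa [tw_zero] using this

/-- the image of the components at a digit, as a subspace, is stable. -/
theorem imB_stb {k m : ZMod h} (hm : m = k ∨ Trv Θ m) :
    OVO27.Stb (rho (F := F)) m (imB (Cc k Θ)) := by
  have hc : ∀ b i A φ, Cc k Θ b i (rho m A φ) = rho m A (Cc k Θ b i φ) := by
    intro b i A φ
    by_cases hkm : k = m
    · subst hkm
      exact Cc_rho_self k b i A φ
    · exact Cc_rho hkm (hm.resolve_left (Ne.symm hkm)) b i A φ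
  intro A β hβ
  have h1 : imB (Cc k Θ) ≤ (imB (Cc k Θ)).comap (rho m A) := by
    refine iSup_le fun b => iSup_le fun i => ?_
    rintro _ ⟨φ, rfl⟩
    rw [Submodule.mem_comap, ← hc]
    exact OVO14.mem_BB (Cc k Θ) b i _
  exact h1 hβ

theorem mem_imB (k : ZMod h) (b i : Fin 4) (φ : E F h) : Cc k Θ b i φ ∈ imB (Cc k Θ) :=
  OVO14.mem_BB (Cc k Θ) b i φ

/-- the pull-back of a subspace by the twist -/
noncomputable def pb (B : Submodule F (E F h)) : Submodule F (E F h) where
  carrier := {β | Phi β ∈ B}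
  add_mem' := fun {a b} ha hb => by
    change Phi (a + b) ∈ B
    rw [map_add]; exact B.add_mem ha hb
  zero_mem' := by
    change Phi 0 ∈ B
    rw [map_zero]; exact B.zero_mem
  smul_mem' := fun c β hβ => by
    change Phi (c • β) ∈ B
    rw [Phi_smul]; exact B.smul_mem _ hβ

theorem mem_pb {B : Submodule F (E F h)} {β : E F h} : β ∈ pb B ↔ Phi β ∈ B := Iff.rfl

/-- **run end**: `Θ` non-trivial at `k`, trivial at `k + 1`. -/
theorem run_end (hG : GStmt) (hL : LStmt) (hB : Base Om Θ) {k : ZMod h} (hk0 : k ≠ 0)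
    (hk1 : k ≠ 1) (hk : ¬ Trv Θ k) (hkk : Trv Θ (k + 1)) : ∀ m, m ≠ k → Trv Θ m := by
  have h3 := hB.h3
  have hq := hB.hq
  have hkv : k.val ≠ 0 := fun e => hk0 ((ZMod.val_eq_zero k).mp e)
  have hkv1 : k.val ≠ 1 := by
    intro e
    apply hk1
    have h1 : Fact (1 < h) := ⟨by omega⟩
    rw [← ZMod.natCast_zmod_val k, e, Nat.cast_one]
  have hklt := ZMod.val_lt k
  -- the slot κ
  set κ : ZMod h := 1 - k with hκ
  have hκ0 : κ ≠ 0 := fun e => hk1 (by rw [hκ, sub_eq_zero] at e; exact e.symm)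
  have hκ1 : κ ≠ 1 := fun e => hk0 (by simpa [hκ] using e)
  have hκv : κ.val = h + 1 - k.val := by
    have h1 : ((h + 1 - k.val : ℕ) : ZMod h) = κ := by
      rw [Nat.cast_sub (by omega)]
      push_cast
      rw [ZMod.natCast_zmod_val, ZMod.natCast_self, zero_add]
    rw [← h1, ZMod.val_natCast, Nat.mod_eq_of_lt (by omega)]
  -- ABS1
  have hL1 : ∀ c b i : Fin 4, ∑ a : Fin 5, Gc k Θ a c * (∑ l, J (F := F) a l i • Cc k Θ b l) =
      ∑ b', gam (F := F) (Pi.single c 1) b b' • Cc k Θ b' i := by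
    intro c b i
    rw [← hL F h Om Θ hB k hk0 hk1 hkk b c i]
    refine Finset.sum_congr rfl fun a _ => ?_
    rw [Finset.mul_sum]
    exact Finset.sum_congr rfl fun l _ => by rw [mul_smul_comm]
  obtain ⟨N, hGm, hNm, hGN, hNG, hGG, hGNc, hNN, hcen⟩ :=
    abs1 (Cc k Θ) (Gc k Θ) (Cc_sa hB hk0 hk1) (Gc_sa hB hk0 hk1) hL1
  obtain ⟨B, hBdef⟩ : ∃ B : Submodule F (E F h), B = imB (Cc k Θ) := ⟨_, rfl⟩
  rw [← hBdef] at hGm hNm hGN hNG hGG hGNc hNN hcen
  -- twisted operators
  obtain ⟨G', hG'⟩ : ∃ G' : Fin 4 → Fin 4 → Module.End F (E F h), G' = fun a i =>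
    co 0 a.succ (tw (k.val - 1) Θ i) := ⟨_, rfl⟩
  obtain ⟨N', hN'⟩ : ∃ N' : Fin 4 → Fin 4 → Module.End F (E F h),
    N' = fun a i => cj.symm (N a i) := ⟨_, rfl⟩
  have hcG : ∀ a i, cj (G' a i) = Gc k Θ a.succ i := by
    intro a i
    have e : k.val - 1 + 1 = k.val := by omega
    simp only [hG', cj_co, zero_add]
    rw [← tw_succ, e]
    rfl
  have hcN : ∀ a i, cj (N' a i) = N a i := fun a i => by simp [hN']
  have pG : ∀ a i β, Phi (G' a i β) = Gc k Θ a.succ i (Phi β) := fun a i β => by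
    rw [← hcG, cj_Phi]
  have pN : ∀ a i β, Phi (N' a i β) = N a i (Phi β) := fun a i β => by
    rw [← hcN, cj_Phi]
  have inj := (Phi (F := F) (h := h)).injective
  obtain ⟨B', hB'def⟩ : ∃ B' : Submodule F (E F h), B' = pb B := ⟨_, rfl⟩
  have mB : ∀ {β : E F h}, β ∈ B' ↔ Phi β ∈ B := by
    intro β; rw [hB'def]; exact mem_pb
  have hG'm : ∀ a i, ∀ β ∈ B', G' a i β ∈ B' := fun a i β hβ => by
    rw [mB, pG]; exact hGm _ _ _ (mB.mp hβ)
  have hN'm : ∀ a i, ∀ β ∈ B', N' a i β ∈ B' := fun a i β hβ => by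
    rw [mB, pN]; exact hNm _ _ _ (mB.mp hβ)
  have hG'N' : ∀ i j, ∀ β ∈ B', ∑ a : Fin 4, G' a i (N' a j β) = if i = j then β else 0 := by
    intro i j β hβ
    apply inj
    rw [map_sum]
    simp only [pG, pN]
    rw [hGN i j _ (mB.mp hβ)]
    split_ifs <;> simp
  have hN'G' : ∀ a a', ∀ β ∈ B', ∑ i : Fin 4, N' a i (G' a' i β) = if a = a' then β else 0 := by
    intro a a' β hβ
    apply inj
    rw [map_sum]
    simp only [pG, pN]
    rw [hNG a a' _ (mB.mp hβ)]
    split_ifs <;> simp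
  have cGG : ∀ a i a' i', ∀ β ∈ B', G' a i (G' a' i' β) = G' a' i' (G' a i β) :=
    fun a i a' i' β hβ => by
      apply inj
      simp only [pG]
      exact hGG a i a'.succ i' _ (mB.mp hβ)
  have cGN : ∀ a i a' i', ∀ β ∈ B', G' a i (N' a' i' β) = N' a' i' (G' a i β) :=
    fun a i a' i' β hβ => by
      apply inj
      simp only [pG, pN]
      exact hGNc a.succ i a' i' _ (mB.mp hβ)
  have cNN : ∀ a i a' i', ∀ β ∈ B', N' a i (N' a' i' β) = N' a' i' (N' a i β) :=
    fun a i a' i' β hβ => by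
      apply inj
      simp only [pN]
      exact hNN a i a' i' _ (mB.mp hβ)
  -- commutation with digits
  have hdig : ∀ m : ZMod h, m + 1 = k ∨ Trv Θ (m + 1) → ∀ A : Matrix (Fin 4) (Fin 4) F,
      (∀ a i, ∀ β ∈ B', G' a i (rho m A β) = rho m A (G' a i β)) ∧
      (∀ a i, ∀ β ∈ B', N' a i (rho m A β) = rho m A (N' a i β)) := by
    intro m hm A
    have hX : ∀ b i φ, rho (m + 1) (A.map fun x => x ^ 2) (Cc k Θ b i φ) =
        Cc k Θ b i (rho (m + 1) (A.map fun x => x ^ 2) φ) := by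
      intro b i φ
      by_cases hkm : k = m + 1
      · rw [← hkm]; exact (Cc_rho_self k b i _ φ).symm
      · exact (Cc_rho hkm (hm.resolve_left (Ne.symm hkm)) b i _ φ).symm
    obtain ⟨h1, h2⟩ := hcen _ _ hX
    constructor
    · intro a i β hβ
      apply inj
      rw [pG, Phi_rho, Phi_rho, pG]
      exact (h1 a.succ i _ (mB.mp hβ)).symm
    · intro a i β hβ
      apply inj
      rw [pN, Phi_rho, Phi_rho, pN]
      exact (h2 a i _ (mB.mp hβ)).symm
  -- the entries
  obtain ⟨gt, hgt⟩ : ∃ gt : Fin 4 → Fin 4 → Fin 4 → F, gt = fun l a a' => jj l a a' := ⟨_, rfl⟩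
  obtain ⟨P, hP⟩ : ∃ P : Fin 4 → Fin 4 → Fin 4 → Module.End F (E F h),
    P = OVO27.PP gt br G' N' := ⟨_, rfl⟩
  have hPm : ∀ p q w, ∀ β ∈ B', P p q w β ∈ B' := fun p q w β hβ => by
    rw [hP]; exact OVO27.PP_mem hG'm hN'm p q w hβ
  have hPs : ∀ m : ZMod h, m + 1 = k ∨ Trv Θ (m + 1) → ∀ p q w M, ∀ β ∈ B',
      P p q w (rho m M β) = rho m M (P p q w β) := by
    intro m hm p q w M β hβ
    obtain ⟨h1, h2⟩ := hdig m hm M
    rw [hP]
    exact (OVO27.PP_comm (X := rho m M) hN'm (fun a i γ hγ => (h1 a i γ hγ).symm)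
      (fun a i γ hγ => (h2 a i γ hγ).symm) p q w hβ).symm
  have hPP : ∀ p q w p' q' w', ∀ β ∈ B', P p q w (P p' q' w' β) = P p' q' w' (P p q w β) := by
    intro p q w p' q' w' β hβ
    rw [hP]
    refine OVO27.PP_comm (X := OVO27.PP gt br G' N' p q w) hN'm ?_ ?_ p' q' w' hβ
    · intro a i γ hγ
      exact (OVO27.PP_comm (X := G' a i) hN'm (fun a' i' δ hδ => cGG a i a' i' δ hδ)
        (fun a' i' δ hδ => cGN a i a' i' δ hδ) p q w hγ).symm
    · intro a i γ hγ
      exact (OVO27.PP_comm (X := N' a i) hN'm (fun a' i' δ hδ => (cGN a' i' a i δ hδ).symm)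
        (fun a' i' δ hδ => cNN a i a' i' δ hδ) p q w hγ).symm
  have hdk := fun A => hdig k (Or.inr hkk) A
  have hB's : OVO27.Stb (rho (F := F)) k B' := by
    intro A β hβ
    rw [mB, Phi_rho, hBdef]
    exact imB_stb (Or.inr hkk) _ _ (by rw [← hBdef]; exact mB.mp hβ)
  have hcl : ∀ z w, ∀ β ∈ B', OVO27.Psi rho k P z (OVO27.Psi rho k P w β) +
      OVO27.Psi rho k P w (OVO27.Psi rho k P z β) = if z = br w then β else 0 := by
    intro z w β hβ
    rw [hP]
    exact OVO27.Psi_cl (ρ := rho) (k := k) (gam := gt) (σ := br) (G := G') (N := N') (B := B')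
      br_br hG'm hN'm hN'G' hG'N' (fun a i M γ hγ => (hdk M).1 a i γ hγ)
      (fun a i M γ hγ => (hdk M).2 a i γ hγ) (fun l m a a' => by rw [hgt]; exact jj_cl l m a a')
      z w hβ
  -- the function identity
  have hfun : ∀ y ∈ Om, ∀ β ∈ B', Qf y * bf β (hat y) =
      ∑ l, y l ^ 2 * bf (OVO27.Psi rho k P l β) (hat y) := by
    intro y hy β hβ
    have := OVO27.sec4 (ρ := rho) (k := k) (Y := {y // y ∈ Om}) (gam := gt) (σ := br)
      (G := G') (N := N') (B := B') (ev := fun y => evl (hat y.1))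
      (u := fun y i => pw y.1 k i) (v := fun y l => y.1 l ^ 2) (qq := fun y => Qf y.1)
      br_br hG'm hN'm hG'N' (fun a i M γ hγ => (hdk M).1 a i γ hγ)
      (fun a i M γ hγ => (hdk M).2 a i γ hγ) hB's
      (fun y i p r β => bf_exch k i p r (pw y.1) β)
      (fun y => by
        by_contra hc
        push Not at hc
        apply om_ne_zero hB y.2
        funext i
        exact pow_eq_zero_iff (pow_ne_zero _ two_ne_zero) |>.mp (hc i))
      (fun y a ξ _ => by
        have h1 := g2_it hB (hG F h Om Θ hB κ hκ0 hκ1) (k.val - 1) y.1 y.2 ξ a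
        have e1 : κ.val + (k.val - 1) = h := by omega
        have e2 : κ.val + 1 + (k.val - 1) = h + 1 := by omega
        have e3 : 1 + (k.val - 1) = k.val := by omega
        have e4 : κ + ((k.val - 1 : ℕ) : ZMod h) = 0 := by
          rw [hκ, Nat.cast_sub (by omega), ZMod.natCast_zmod_val]
          push_cast; ring
        have e5 : ∀ x : F, x ^ (2 ^ h) = x := fun x => by
          have := FiniteField.pow_card x
          rwa [hq] at this
        have e6 : ∀ x : F, x ^ (2 ^ (h + 1)) = x ^ 2 := fun x => by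
          rw [pow_succ, pow_mul, e5]
        rw [e1, e2, e3, e4] at h1
        simp only [e5, e6] at h1
        simp only [evl_apply]
        have h2 : Qf y.1 * ∑ i, pw y.1 k i * bf (G' a i ξ) (hat y.1) =
            ∑ b', gam (fun i => y.1 i ^ 2) a b' * ∑ i, pw y.1 k i * bf (G' b' i ξ) (hat y.1) := by
          rw [hG']; exact h1
        rw [h2, hgt]
        simp only [OVE53.gam_eq, Finset.sum_mul]
        rw [Finset.sum_comm]
        refine Finset.sum_congr rfl fun l _ => ?_
        rw [Finset.mul_sum]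
        exact Finset.sum_congr rfl fun b' _ => by ring)
      ⟨y, hy⟩ hβ
    rw [← hP] at this
    exact this
  -- (5.0)
  have h5 : ∀ β ∈ B', ∀ r : Fin 4, ∑ i : Fin 4, rho 1 (OVO27.mu r i) (Θ i β) =
      ∑ i : Fin 4, rho 1 (OVO27.mu r i) (OVO27.Psi rho k P i β) := by
    intro β hβ r
    have h51 := s5 Om hB.pl (fun i => Θ i β - OVO27.Psi rho k P i β) (by
      intro y hy
      have e1 : ∀ i, pw y (1 : ZMod h) i = y i ^ 2 := by
        intro i
        have h1 : Fact (1 < h) := ⟨by omega⟩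
        unfold pw
        rw [ZMod.val_one, pow_one]
      have e2 : ∀ i, bf (Θ i β - OVO27.Psi rho k P i β) (hat y) =
          bf (Θ i β) (hat y) - bf (OVO27.Psi rho k P i β) (hat y) := fun i =>
        map_sub (evl (hat y)) _ _
      simp only [e1, e2, mul_sub, Finset.sum_sub_distrib]
      rw [e5_pair hB hy, hfun y hy β hβ, sub_self]) r
    simp only [map_sub, Finset.sum_sub_distrib] at h51
    exact sub_eq_zero.mp h51
  have conv : ∀ m, OVO27.Trv (rho (F := F)) (fun i => Θ (br i)) m ↔ Trv Θ m := by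
    intro m
    constructor
    · intro h1 i M φ
      have := h1 (br i) M φ
      simpa using this
    · intro h1 i M φ
      exact h1 (br i) M φ
  have hfin := OVO27.fin_all (ρ := rho (F := F) (h := h)) (k := k)
    (fun m n hmn M N β => rho_comm_apply hmn M N β)
    (fun B h0 hB => E_irr B h0 hB) (Φ := fun β => Phi β) (fun β => Phi_iter_h hq β)
    (fun m M β => Phi_rho m M β)
    hk1 (σ := br) br_br (j := J) rfl (T := fun i => Θ (br i))
    (C := fun b i => co k b (Θ (br i)))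
    (B := B) (B' := B') (P := fun p q w => P p q (br w))
    ((conv 0).mpr hB.t0) ((conv 1).mpr hB.t1) ((conv (k + 1)).mpr hkk)
    (by
      intro i φ
      have := congrArg (fun T : Module.End F (E F h) => T φ) (hB.slot k hk0 hk1 (br i))
      simpa [LinearMap.sum_apply] using this)
    (fun b i M φ => co_comm_apply k b (Θ (br i)) M φ)
    (by
      intro b i hb φ
      obtain ⟨b, rfl⟩ := Fin.exists_succ_eq.mpr hb
      rw [hBdef]
      exact mem_imB k b (br i) φ)
    (by
      intro hbot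
      apply hk
      refine trv_of_Cc hB hk0 hk1 fun b i φ => ?_
      have := mem_imB (Θ := Θ) k b i φ
      rw [← hBdef, hbot] at this
      simpa using this)
    (fun β => mB)
    (by
      intro m hm
      rw [hBdef]
      exact imB_stb (hm.imp_right (conv m).mp))
    (fun p q w β hβ => hPm p q (br w) β hβ)
    (fun m hm p q w M β hβ => hPs m (hm.imp_right (conv (m + 1)).mp) p q (br w) M β hβ)
    (fun p q w p' q' w' β hβ => hPP p q (br w) p' q' (br w') β hβ)
    (by
      intro z w β hβ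
      have h1 := hcl (br z) (br w) β hβ
      have e1 : ∀ w, OVO27.Psi (rho (F := F) (h := h)) k (fun p q w => P p q (br w)) w =
          OVO27.Psi rho k P (br w) := fun w => rfl
      rw [e1, e1, h1]
      have e2 : (br z = br (br w)) = (z = br w) := propext ⟨fun e => br_inj e, fun e => by rw [e]⟩
      simp only [e2])
    (by
      intro β hβ r
      have e1 : ∀ w, OVO27.Psi (rho (F := F) (h := h)) k (fun p q w => P p q (br w)) w =
          OVO27.Psi rho k P (br w) := fun w => rfl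
      simp only [e1]
      have h1 := h5 β hβ r
      rw [← Equiv.sum_comp brE (fun i => rho 1 (OVO27.mu r i) (Θ i β)),
        ← Equiv.sum_comp brE (fun i => rho 1 (OVO27.mu r i) (OVO27.Psi rho k P i β))] at h1
      exact h1)
  intro m hm
  exact (conv m).mp (hfin m hm)

/-- **LAYER TWO**. -/
theorem layer2 (hG : GStmt) (hL : LStmt) : LayerTwoStmt := by
  intro F _ _ _ h _ Om Θ hB
  classical
  have h3 := hB.h3
  by_cases hall : ∀ m, Trv Θ m
  · refine ⟨2, ?_, ?_, fun m _ => hall m⟩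
    · intro e
      have h1 := congrArg ZMod.val e
      rw [ZMod.val_zero] at h1
      have h2 : ((2 : ℕ) : ZMod h).val = 2 := by
        rw [ZMod.val_natCast, Nat.mod_eq_of_lt (by omega)]
      have e3 : ((2 : ℕ) : ZMod h) = 2 := by push_cast; rfl
      rw [e3] at h2
      omega
    · intro e
      have h1 := congrArg ZMod.val e
      have hf : Fact (1 < h) := ⟨by omega⟩
      rw [ZMod.val_one] at h1
      have h2 : ((2 : ℕ) : ZMod h).val = 2 := by
        rw [ZMod.val_natCast, Nat.mod_eq_of_lt (by omega)]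
      have e3 : ((2 : ℕ) : ZMod h) = 2 := by push_cast; rfl
      rw [e3] at h2
      omega
  · push Not at hall
    obtain ⟨m0, hm0⟩ := hall
    obtain ⟨k, hkS, hkmax⟩ := Finset.exists_max_image
      (Finset.univ.filter fun m : ZMod h => ¬ Trv Θ m) (fun m => m.val)
      ⟨m0, by simp [hm0]⟩
    have hk : ¬ Trv Θ k := (Finset.mem_filter.mp hkS).2
    have hk0 : k ≠ 0 := fun e => hk (e ▸ hB.t0)
    have hk1 : k ≠ 1 := fun e => hk (e ▸ hB.t1)
    have hkk : Trv Θ (k + 1) := by
      by_contra hc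
      have h1 := hkmax (k + 1) (by simp [hc])
      have hf : Fact (1 < h) := ⟨by omega⟩
      have hklt := ZMod.val_lt k
      rw [ZMod.val_add, ZMod.val_one] at h1
      rcases Nat.lt_or_ge (k.val + 1) h with h2 | h2
      · rw [Nat.mod_eq_of_lt h2] at h1
        omega
      · have h4 : k.val + 1 = h := by omega
        apply hc
        have h5 : k + 1 = 0 := by
          rw [← ZMod.natCast_zmod_val k]
          have : ((k.val : ZMod h) + 1) = ((k.val + 1 : ℕ) : ZMod h) := by push_cast; rfl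
          rw [this, h4, ZMod.natCast_self]
        rw [h5]
        exact hB.t0
    exact ⟨k, hk0, hk1, run_end hG hL hB hk0 hk1 hk hkk⟩

/-- **LAYER TWO**, unconditional. -/
theorem t_layer2 : LayerTwoStmt := layer2 OVE53.t_g2 OVE53.t_l

end run

end Pool.OVE27
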